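import Pool.Agent.Q205.WV.Stm

set_option autoImplicit false

namespace Pool.Agent.Q26.WV.EQD

open MeasureTheory Filter Pool.Agent.W792.LL Pool.Agent.W792.WA

theorem vol_eq (d : ℕ) : (Measure.pi fun _ : Fin d => (AddCircle.haarAddCircle : Measure UnitAddCircle)) =
    (volume : Measure (UnitAddTorus (Fin d))) := by
  have h1 : (AddCircle.haarAddCircle : Measure UnitAddCircle) = volume := by
    have h2 := AddCircle.volume_eq_smul_haarAddCircle (T := (1 : ℝ))
    rw [ENNReal.ofReal_one, one_smul] at h2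
    exact h2.symm
  rw [h1]
  rfl

theorem mfc_zero (d : ℕ) (f : UnitAddTorus (Fin d) → ℂ) :
    UnitAddTorus.mFourierCoeff f 0 = ∫ k, f k := by
  have h1 : UnitAddTorus.mFourierCoeff f 0 = ∫ k, UnitAddTorus.mFourier (-(0 : Fin d → ℤ)) k • f k
      ∂(Measure.pi fun _ : Fin d => (AddCircle.haarAddCircle : Measure UnitAddCircle)) := rfl
  rw [h1, vol_eq]
  refine integral_congr_ae (Filter.Eventually.of_forall fun k => ?_)
  simp only [neg_zero, UnitAddTorus.mFourier_zero, ContinuousMap.one_apply, one_smul]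

theorem prob (d : ℕ) : IsProbabilityMeasure (volume : Measure (UnitAddTorus (Fin d))) := by
  rw [← vol_eq]
  infer_instance

theorem cont_pt (d : ℕ) (h : C(UnitAddCircle, ℝ)) (M : ℕ) :
    Continuous fun k : UnitAddTorus (Fin d) =>
      h ((M * lap d k / (2 * Real.pi) : ℝ) : UnitAddCircle) := by
  have h1 : Continuous fun k : UnitAddTorus (Fin d) => (M * lap d k / (2 * Real.pi) : ℝ) := by
    fun_prop
  exact h.continuous.comp ((AddCircle.continuous_mk' 1).comp h1)

theorem main (h0 : S_AVG0) : S_EQD := by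
  intro d h hd e he
  have hprob := prob d
  let F : C(UnitAddTorus (Fin d) × UnitAddCircle, ℂ) :=
    ⟨fun z => ((h z.2 : ℝ) : ℂ), Complex.continuous_ofReal.comp (h.continuous.comp continuous_snd)⟩
  obtain ⟨M₀, hM⟩ := h0 d hd F e he
  refine ⟨M₀, fun M hMM => ?_⟩
  have h1 := hM M hMM 0
  have hint : Integrable (fun k : UnitAddTorus (Fin d) =>
      h ((M * lap d k / (2 * Real.pi) : ℝ) : UnitAddCircle)) :=
    (cont_pt d h M).integrable_of_hasCompactSupport (HasCompactSupport.of_compactSpace _)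
  have h2 : UnitAddTorus.mFourierCoeff (fun k : UnitAddTorus (Fin d) =>
        F (k, ((M * lap d k / (2 * Real.pi) : ℝ) : UnitAddCircle))
          - ∫ φ in Set.Ioc (0 : ℝ) 1, F (k, (φ : UnitAddCircle))) 0 =
      (((∫ k : UnitAddTorus (Fin d), h ((M * lap d k / (2 * Real.pi) : ℝ) : UnitAddCircle))
      - ∫ φ in Set.Ioc (0 : ℝ) 1, h (φ : UnitAddCircle) : ℝ) : ℂ) := by
    rw [mfc_zero]
    have h3 : ∀ k : UnitAddTorus (Fin d),
        (F (k, ((M * lap d k / (2 * Real.pi) : ℝ) : UnitAddCircle))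
          - ∫ φ in Set.Ioc (0 : ℝ) 1, F (k, (φ : UnitAddCircle))) =
        ((h ((M * lap d k / (2 * Real.pi) : ℝ) : UnitAddCircle)
          - ∫ φ in Set.Ioc (0 : ℝ) 1, h (φ : UnitAddCircle) : ℝ) : ℂ) := by
      intro k
      rw [Complex.ofReal_sub]
      congr 1
      exact integral_ofReal
    obtain ⟨c, hc⟩ : ∃ c : ℝ, c = ∫ φ in Set.Ioc (0 : ℝ) 1, h (φ : UnitAddCircle) := ⟨_, rfl⟩
    rw [integral_congr_ae (Filter.Eventually.of_forall h3), integral_complex_ofReal, ← hc]
    congr 1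
    have h4 := integral_sub hint (integrable_const c)
    rw [integral_const, probReal_univ, one_smul] at h4
    exact h4
  rw [h2, Complex.norm_real, Real.norm_eq_abs] at h1
  exact h1

end Pool.Agent.Q26.WV.EQD
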